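import Pool.Agent.Helper65.KH.Goals

set_option autoImplicit false

open Polynomial

namespace Pool.Agent.Helper77.KH.GQ

open Pool.Agent.Helper65.KH

variable {ι : Type} [Fintype ι] [DecidableEq ι]

lemma dt_sum (w : ι → ℝ) {κ : Type} (s : Finset κ) (f : κ → ι → ℝ) :
    dt w (∑ k ∈ s, f k) = ∑ k ∈ s, dt w (f k) := by
  unfold dt
  simp only [Finset.sum_apply, Finset.mul_sum]
  exact Finset.sum_comm

lemma dt_smul (w : ι → ℝ) (a : ℝ) (x : ι → ℝ) : dt w (a • x) = a * dt w x := by
  unfold dt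
  simp only [Pi.smul_apply, smul_eq_mul, Finset.mul_sum]
  exact Finset.sum_congr rfl fun i _ => by ring

lemma cv_smul (m : ℕ) (v : ι → ℕ) : cv (m • v) = (m : ℝ) • cv v := by
  funext i
  simp [cv]

lemma one_set (U : Finset (ι → ℕ)) (j : (ι → ℕ) → ℕ) (hj : Function.Injective j) :
    ∃ B : ℕ, ∀ q : ℕ, B ≤ q → ∀ w : ι → ℝ,
      (∀ v ∈ U, ((q : ℝ) + j v) * dt w (cv v) = 1) →
      LinearIndependent ℝ (fun v : U => cv (v : ι → ℕ)) := by
  classical
  by_cases hLI : LinearIndependent ℝ (fun v : U => cv (v : ι → ℕ))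
  · exact ⟨0, fun _ _ _ _ => hLI⟩
  obtain ⟨g, hg, i, hi⟩ := Fintype.not_linearIndependent_iff.1 hLI
  set P : ℝ[X] := ∑ u : U, C (g u) * ∏ u' ∈ Finset.univ.erase u, (X + C ((j u' : ℕ) : ℝ)) with hP
  have hPev : ∀ x : ℝ, P.eval x = ∑ u : U, g u * ∏ u' ∈ Finset.univ.erase u, (x + j u') := by
    intro x
    rw [hP, eval_finset_sum]
    refine Finset.sum_congr rfl fun u _ => ?_
    rw [eval_mul, eval_C, eval_prod]
    simp
  have hP0 : P ≠ 0 := by
    intro h0
    have h1 : P.eval (-(j i : ℝ)) = 0 := by rw [h0]; simp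
    rw [hPev, Finset.sum_eq_single i] at h1
    · rcases mul_eq_zero.1 h1 with h | h
      · exact hi h
      · rw [Finset.prod_eq_zero_iff] at h
        obtain ⟨u', hu', h2⟩ := h
        rw [Finset.mem_erase] at hu'
        apply hu'.1
        apply Subtype.ext
        apply hj
        have h3 : ((j u' : ℕ) : ℝ) = ((j i : ℕ) : ℝ) := by linarith
        exact_mod_cast h3
    · intro u _ hu
      rw [Finset.prod_eq_zero (i := i) (Finset.mem_erase.2 ⟨fun h => hu h.symm, Finset.mem_univ _⟩)
        (by ring), mul_zero]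
    · intro h
      exact absurd (Finset.mem_univ _) h
  have hev := P.eventually_no_roots hP0
  have hev2 := tendsto_natCast_atTop_atTop (R := ℝ) |>.eventually hev
  obtain ⟨B, hB⟩ := Filter.eventually_atTop.1 hev2
  refine ⟨B + 1, fun q hq w hw => ?_⟩
  exfalso
  apply hB q (by omega)
  have hq0 : (0 : ℝ) < q := by exact_mod_cast (by omega : 0 < q)
  rw [IsRoot, hPev]
  have h1 : ∑ u : U, g u * dt w (cv (u : ι → ℕ)) = 0 := by
    have h2 := congrArg (dt w) hg
    rw [dt_sum] at h2
    simp only [dt_smul] at h2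
    rw [h2]
    simp [dt]
  have h3 : ∀ u : U, g u * ∏ u' ∈ Finset.univ.erase u, ((q : ℝ) + j u') =
      (∏ u' : U, ((q : ℝ) + j u')) * (g u * dt w (cv (u : ι → ℕ))) := by
    intro u
    rw [← Finset.mul_prod_erase Finset.univ _ (Finset.mem_univ u)]
    have h4 := hw u u.2
    calc g u * ∏ u' ∈ Finset.univ.erase u, ((q : ℝ) + j u')
        = (((q : ℝ) + j u) * dt w (cv (u : ι → ℕ))) *
            (g u * ∏ u' ∈ Finset.univ.erase u, ((q : ℝ) + j u')) := by rw [h4, one_mul]
      _ = _ := by ring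
  rw [Finset.sum_congr rfl fun u _ => h3 u, ← Finset.mul_sum, h1, mul_zero]

/-- packet GQ -/
theorem t : S_GQ := by
  classical
  intro ι _ _ V hV
  obtain ⟨j, hj⟩ := exists_injective_nat (ι → ℕ)
  choose B hB using fun U : Finset (ι → ℕ) => one_set U j hj
  refine ⟨V.sup j, V.powerset.sup B + 1, fun q hq => ?_⟩
  refine ⟨V.image fun v => (q + j v) • v, ⟨?_, ?_⟩, ?_⟩
  · intro v hv
    refine ⟨q + j v, by omega, ?_, Finset.mem_image_of_mem _ hv⟩
    have := Finset.le_sup (f := j) hv
    omega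
  · intro v' hv'
    obtain ⟨v, hv, rfl⟩ := Finset.mem_image.1 hv'
    refine ⟨v, hv, q + j v, by omega, ?_, rfl⟩
    have := Finset.le_sup (f := j) hv
    omega
  · intro w U hU hw
    have hex : ∀ u : U, ∃ v ∈ V, (q + j v) • v = (u : ι → ℕ) := fun u =>
      Finset.mem_image.1 (hU u.2)
    choose r hrV hr using hex
    set U0 : Finset (ι → ℕ) := Finset.univ.image r with hU0
    have hU0V : U0 ⊆ V := by
      intro x hx
      obtain ⟨u, -, rfl⟩ := Finset.mem_image.1 hx
      exact hrV u
    have hBq : B U0 ≤ q := by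
      have := Finset.le_sup (f := B) (Finset.mem_powerset.2 hU0V)
      omega
    have hq0 : 0 < q := by omega
    have hLI := hB U0 q hBq w (by
      intro v hv
      obtain ⟨u, -, rfl⟩ := Finset.mem_image.1 hv
      have h1 := hw u u.2
      rw [← hr u, cv_smul, dt_smul] at h1
      push_cast at h1
      exact h1)
    have hrinj : Function.Injective (fun u : U => (⟨r u, Finset.mem_image_of_mem r
        (Finset.mem_univ u)⟩ : U0)) := by
      intro u u' h
      have h1 : r u = r u' := congrArg Subtype.val h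
      apply Subtype.ext
      rw [← hr u, ← hr u', h1]
    have h2 := hLI.comp _ hrinj
    have hne : ∀ u : U, ((q : ℝ) + j (r u)) ≠ 0 := by
      intro u
      have : (0 : ℝ) < q := by exact_mod_cast hq0
      positivity
    have h3 := h2.units_smul (fun u => Units.mk0 ((q : ℝ) + j (r u)) (hne u))
    convert h3 using 1
    funext u
    rw [← hr u, cv_smul]
    simp only [Pi.smul_apply', Function.comp, Units.smul_mk0]
    push_cast
    rfl

end Pool.Agent.Helper77.KH.GQ
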